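import Pool.Agent.W805.LR.Stm

/-!
# Single slot lemmas and the damage bound (general tools for stages)
-/

set_option autoImplicit false

namespace Pool.Agent.W815.LR

open Finset Equiv Pool.Agent.W805.LR

/-- Indicator. -/
noncomputable def ind (P : Prop) : ℝ := open Classical in if P then 1 else 0

theorem ind_nonneg (P : Prop) : 0 ≤ ind P := by
  unfold ind; split_ifs <;> norm_num

theorem ind_le_one (P : Prop) : ind P ≤ 1 := by
  unfold ind; split_ifs <;> norm_num

theorem ind_of {P : Prop} (h : P) : ind P = 1 := by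
  unfold ind; rw [if_pos h]

theorem ind_of_not {P : Prop} (h : ¬ P) : ind P = 0 := by
  unfold ind; rw [if_neg h]

theorem ind_mono {P Q : Prop} (h : P → Q) : ind P ≤ ind Q := by
  by_cases hP : P
  · rw [ind_of hP, ind_of (h hP)]
  · rw [ind_of_not hP]; exact ind_nonneg Q

theorem ind_congr {P Q : Prop} (h : P ↔ Q) : ind P = ind Q := by
  rw [propext h]

theorem ind_and (P Q : Prop) : ind (P ∧ Q) = ind P * ind Q := by
  by_cases hP : P <;> by_cases hQ : Q <;> simp [ind, hP, hQ]

theorem ind_not (P : Prop) : ind (¬ P) = 1 - ind P := by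
  by_cases hP : P <;> simp [ind, hP]

theorem cnt_ind {V : Type} [Fintype V] (P : V → Prop) : cnt P = ∑ v, ind (P v) := rfl

theorem cnt_nonneg {V : Type} [Fintype V] (P : V → Prop) : 0 ≤ cnt P :=
  sum_nonneg fun _ _ => ind_nonneg _

theorem cnt_mono {V : Type} [Fintype V] {P Q : V → Prop} (h : ∀ v, P v → Q v) : cnt P ≤ cnt Q :=
  sum_le_sum fun v _ => ind_mono (h v)

theorem one_le_len {V : Type} [Fintype V] [DecidableEq V] (g : Perm V) (v : V) : 1 ≤ len g v := by
  unfold len
  rw [cnt_ind]
  calc (1 : ℝ) = ind (g.SameCycle v v) := (ind_of (Perm.SameCycle.refl g v)).symm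
    _ ≤ _ := single_le_sum (f := fun w => ind (g.SameCycle v w))
      (fun w _ => ind_nonneg _) (mem_univ v)

section slot

variable {V K : Type} [Fintype V] [DecidableEq V] [Fintype K] [DecidableEq K]

theorem sum_slot (k : K) (f : (K → Option (V × V)) → ℝ) :
    ∑ ω, f ω = ∑ ω, ind (ω k = none) *
      (f ω + ∑ x, ∑ y, f (Function.update ω k (some (x, y)))) := by
  classical
  let e := Equiv.funSplitAt k (Option (V × V))
  rw [← e.symm.sum_comp f, ← e.symm.sum_comp (fun ω => ind (ω k = none) *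
      (f ω + ∑ x, ∑ y, f (Function.update ω k (some (x, y)))))]
  rw [Fintype.sum_prod_type_right, Fintype.sum_prod_type_right]
  refine sum_congr rfl fun ρ _ => ?_
  have hk : ∀ o, (e.symm (o, ρ)) k = o := by
    intro o
    simp [e, Equiv.funSplitAt, Equiv.piSplitAt]
  have hu : ∀ o o', Function.update (e.symm (o, ρ)) k o' = e.symm (o', ρ) := by
    intro o o'
    funext j
    by_cases hj : j = k
    · subst hj
      rw [Function.update_self, hk]
    · rw [Function.update_of_ne hj]
      simp [e, Equiv.funSplitAt, Equiv.piSplitAt, hj]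
  rw [Fintype.sum_option, Fintype.sum_option]
  have h0 : ∀ p : V × V, ind ((e.symm (some p, ρ)) k = none) = 0 := by
    intro p
    rw [hk]
    exact ind_of_not (by simp)
  simp only [h0, zero_mul, sum_const_zero, add_zero]
  rw [hk, ind_of rfl, one_mul, Fintype.sum_prod_type]
  simp only [hu]

omit [DecidableEq V] in
theorem sum3 {B : Type} [Fintype B] (f : V → V → B → ℝ) :
    ∑ x, ∑ y, ∑ b, f x y b = ∑ b, ∑ x, ∑ y, f x y b := by
  rw [sum_comm (s := (univ : Finset B))]
  refine sum_congr rfl fun x _ => ?_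
  rw [sum_comm]

/-- Expectation restricted to an empty slot. -/
noncomputable def evn (k : K) (W G : (K → Option (V × V)) → ℝ) : ℝ :=
  ∑ ω, ind (ω k = none) * (W ω * G ω)

/-- A function of the content of the slot. -/
noncomputable def slotF (k : K) (F : V → V → (K → Option (V × V)) → ℝ)
    (ω : K → Option (V × V)) : ℝ :=
  match ω k with
  | none => 0
  | some e => F e.1 e.2 ω

theorem slotF_none {k : K} {F : V → V → (K → Option (V × V)) → ℝ} {ω : K → Option (V × V)}
    (h : ω k = none) : slotF k F ω = 0 := by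
  unfold slotF; rw [h]

theorem slotF_some {k : K} {F : V → V → (K → Option (V × V)) → ℝ} {ω : K → Option (V × V)}
    {x y : V} (h : ω k = some (x, y)) : slotF k F ω = F x y ω := by
  unfold slotF; rw [h]

theorem slotF_update {k : K} {F : V → V → (K → Option (V × V)) → ℝ} {ω : K → Option (V × V)}
    {x y : V} (hF : ∀ x y ω o, F x y (Function.update ω k o) = F x y ω) :
    slotF k F (Function.update ω k (some (x, y))) = F x y ω := by
  rw [slotF_some (x := x) (y := y) (by simp), hF]

theorem update_none {k : K} {ω : K → Option (V × V)} (h : ω k = none) :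
    Function.update ω k none = ω := by
  rw [← h]; exact Function.update_eq_self k ω

variable {k : K} {W : (K → Option (V × V)) → ℝ} {w : V → V → ℝ} {Θ : ℝ}

theorem slot_up
    (up : ∀ (ω : K → Option (V × V)) (x y : V),
      W (Function.update ω k (some (x, y))) ≤ Θ * w x y * W (Function.update ω k none))
    (F : V → V → (K → Option (V × V)) → ℝ) (hF0 : ∀ x y ω, 0 ≤ F x y ω)
    (hF : ∀ x y ω o, F x y (Function.update ω k o) = F x y ω) :
    ∑ ω, W ω * slotF k F ω ≤ Θ * ∑ x, ∑ y, w x y * evn k W (F x y) := by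
  rw [sum_slot k (fun ω => W ω * slotF k F ω)]
  have h1 : Θ * ∑ x, ∑ y, w x y * evn k W (F x y) =
      ∑ ω, ind (ω k = none) * ∑ x, ∑ y, Θ * w x y * W ω * F x y ω := by
    unfold evn
    simp only [mul_sum]
    rw [sum3]
    refine sum_congr rfl fun ω _ => sum_congr rfl fun x _ => sum_congr rfl fun y _ => ?_
    ring
  rw [h1]
  refine sum_le_sum fun ω _ => ?_
  by_cases hk : ω k = none
  · rw [ind_of hk, one_mul, one_mul, slotF_none hk, mul_zero, zero_add]
    refine sum_le_sum fun x _ => sum_le_sum fun y _ => ?_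
    rw [slotF_update hF]
    have := up ω x y
    rw [update_none hk] at this
    exact mul_le_mul_of_nonneg_right this (hF0 x y ω)
  · rw [ind_of_not hk, zero_mul, zero_mul]

theorem slot_low
    (low : ∀ (ω : K → Option (V × V)) (x y : V),
      w x y * W (Function.update ω k none) ≤ Θ * W (Function.update ω k (some (x, y))))
    (F : V → V → (K → Option (V × V)) → ℝ) (hF0 : ∀ x y ω, 0 ≤ F x y ω)
    (hF : ∀ x y ω o, F x y (Function.update ω k o) = F x y ω) :
    ∑ x, ∑ y, w x y * evn k W (F x y) ≤ Θ * ∑ ω, W ω * slotF k F ω := by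
  rw [sum_slot k (fun ω => W ω * slotF k F ω)]
  have h1 : ∑ x, ∑ y, w x y * evn k W (F x y) =
      ∑ ω, ind (ω k = none) * ∑ x, ∑ y, w x y * W ω * F x y ω := by
    unfold evn
    simp only [mul_sum]
    rw [sum3]
    refine sum_congr rfl fun ω _ => sum_congr rfl fun x _ => sum_congr rfl fun y _ => ?_
    ring
  rw [h1, mul_sum]
  refine sum_le_sum fun ω _ => ?_
  by_cases hk : ω k = none
  · rw [ind_of hk, one_mul, one_mul, slotF_none hk, mul_zero, zero_add, mul_sum]
    refine sum_le_sum fun x _ => ?_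
    rw [mul_sum]
    refine sum_le_sum fun y _ => ?_
    rw [slotF_update hF]
    have := low ω x y
    rw [update_none hk] at this
    rw [← mul_assoc]
    exact mul_le_mul_of_nonneg_right this (hF0 x y ω)
  · rw [ind_of_not hk, zero_mul, zero_mul, mul_zero]

theorem ev_le_evn
    (up : ∀ (ω : K → Option (V × V)) (x y : V),
      W (Function.update ω k (some (x, y))) ≤ Θ * w x y * W (Function.update ω k none))
    (G : (K → Option (V × V)) → ℝ) (hG0 : ∀ ω, 0 ≤ G ω)
    (hG : ∀ ω o, G (Function.update ω k o) = G ω) :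
    ev W G ≤ (1 + Θ * ∑ x, ∑ y, w x y) * evn k W G := by
  unfold ev evn
  rw [sum_slot k (fun ω => W ω * G ω), mul_sum]
  refine sum_le_sum fun ω _ => ?_
  by_cases hk : ω k = none
  · rw [ind_of hk, one_mul, one_mul, add_mul, one_mul, mul_sum, sum_mul]
    refine add_le_add le_rfl (sum_le_sum fun x _ => ?_)
    rw [mul_sum, sum_mul]
    refine sum_le_sum fun y _ => ?_
    rw [hG]
    have := up ω x y
    rw [update_none hk] at this
    calc W (Function.update ω k (some (x, y))) * G ω ≤ (Θ * w x y * W ω) * G ω :=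
          mul_le_mul_of_nonneg_right this (hG0 ω)
      _ = Θ * w x y * (W ω * G ω) := by ring
  · rw [ind_of_not hk, zero_mul, zero_mul, mul_zero]

theorem evn_le_ev (hW : ∀ ω, 0 ≤ W ω) (G : (K → Option (V × V)) → ℝ) (hG0 : ∀ ω, 0 ≤ G ω) :
    evn k W G ≤ ev W G := by
  unfold ev evn
  refine sum_le_sum fun ω _ => ?_
  have := mul_nonneg (hW ω) (hG0 ω)
  calc _ ≤ 1 * (W ω * G ω) := mul_le_mul_of_nonneg_right (ind_le_one _) this
    _ = _ := one_mul _

theorem evn_mono (hW : ∀ ω, 0 ≤ W ω) {G G' : (K → Option (V × V)) → ℝ}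
    (h : ∀ ω, W ω ≠ 0 → G ω ≤ G' ω) : evn k W G ≤ evn k W G' := by
  unfold evn
  refine sum_le_sum fun ω _ => ?_
  refine mul_le_mul_of_nonneg_left ?_ (ind_nonneg _)
  by_cases h0 : W ω = 0
  · rw [h0]; simp
  · exact mul_le_mul_of_nonneg_left (h ω h0) (hW ω)

theorem ev_mono (hW : ∀ ω, 0 ≤ W ω) {G G' : (K → Option (V × V)) → ℝ}
    (h : ∀ ω, W ω ≠ 0 → G ω ≤ G' ω) : ev W G ≤ ev W G' := by
  unfold ev
  refine sum_le_sum fun ω _ => ?_
  by_cases h0 : W ω = 0
  · rw [h0]; simp
  · exact mul_le_mul_of_nonneg_left (h ω h0) (hW ω)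

theorem ev_congr {G G' : (K → Option (V × V)) → ℝ}
    (h : ∀ ω, W ω ≠ 0 → G ω = G' ω) : ev W G = ev W G' := by
  unfold ev
  refine sum_congr rfl fun ω _ => ?_
  by_cases h0 : W ω = 0
  · rw [h0]; simp
  · rw [h ω h0]

theorem ev_add (G G' : (K → Option (V × V)) → ℝ) :
    ev W (fun ω => G ω + G' ω) = ev W G + ev W G' := by
  unfold ev
  rw [← sum_add_distrib]
  exact sum_congr rfl fun ω _ => mul_add _ _ _

theorem ev_sub (G G' : (K → Option (V × V)) → ℝ) :
    ev W (fun ω => G ω - G' ω) = ev W G - ev W G' := by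
  unfold ev
  rw [← sum_sub_distrib]
  exact sum_congr rfl fun ω _ => mul_sub _ _ _

theorem ev_sum {J : Type} (S : Finset J) (G : J → (K → Option (V × V)) → ℝ) :
    ev W (fun ω => ∑ j ∈ S, G j ω) = ∑ j ∈ S, ev W (G j) := by
  unfold ev
  rw [sum_comm]
  exact sum_congr rfl fun ω _ => mul_sum _ _ _

theorem ev_const_mul (r : ℝ) (G : (K → Option (V × V)) → ℝ) :
    ev W (fun ω => r * G ω) = r * ev W G := by
  unfold ev
  rw [mul_sum]
  exact sum_congr rfl fun ω _ => by ring

theorem ev_nonneg (hW : ∀ ω, 0 ≤ W ω) {G : (K → Option (V × V)) → ℝ} (h : ∀ ω, 0 ≤ G ω) :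
    0 ≤ ev W G := sum_nonneg fun ω _ => mul_nonneg (hW ω) (h ω)

theorem evn_sum {J : Type} (S : Finset J) (G : J → (K → Option (V × V)) → ℝ) :
    evn k W (fun ω => ∑ j ∈ S, G j ω) = ∑ j ∈ S, evn k W (G j) := by
  unfold evn
  rw [sum_comm]
  refine sum_congr rfl fun ω _ => ?_
  simp only [mul_sum]

theorem evn_const_mul (r : ℝ) (G : (K → Option (V × V)) → ℝ) :
    evn k W (fun ω => r * G ω) = r * evn k W G := by
  unfold evn
  rw [mul_sum]
  exact sum_congr rfl fun ω _ => by ring

end slot

section conj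

variable {V : Type} [Fintype V] [DecidableEq V]

theorem conj_swap (c : Perm V) (x y : V) : c * swap x y * c⁻¹ = swap (c x) (c y) := by
  rw [Equiv.swap_apply_apply]

end conj

section stage

variable {V K ι : Type} [Fintype V] [DecidableEq V] [Fintype K] [DecidableEq K]
  {Θ : ℝ} {W : (K → Option (V × V)) → ℝ} {w : V → V → ℝ} {blk : V → ι} {M : ℕ} {a : Fin M → K}
  {g : ℕ → (K → Option (V × V)) → Perm V} {c : Fin M → (K → Option (V × V)) → Perm V}

theorem step_none (h : IsStage Θ W w blk M a g c) (i : Fin M) {ω : K → Option (V × V)}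
    (ho : ω (a i) = none) : g (i.val + 1) ω = g i.val ω := by
  rw [h.step i ω, ho]
  simp [tau]

theorem step_some (h : IsStage Θ W w blk M a g c) (i : Fin M) {ω : K → Option (V × V)} {x y : V}
    (ho : ω (a i) = some (x, y)) :
    g (i.val + 1) ω = swap (c i ω x) (c i ω y) * g i.val ω := by
  rw [h.step i ω, ho]
  simp only [tau]
  rw [conj_swap]

/-- A weight dominating `w` : total mass of near pairs. -/
theorem damage (h : IsStage Θ W w blk M a g c) (hd : S_damage) (hn : S_near) (hΘ : 0 ≤ Θ)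
    (i : Fin M) (s : ℝ) (hs : 0 ≤ s) (m f : ℝ) (hm : 0 ≤ m) (w2 : V → V → ℝ)
    (hw20 : ∀ x y, 0 ≤ w2 x y) (hw : ∀ x y, w x y ≤ m + w2 x y)
    (hf : (∑ x, ∑ y, w2 x y) ≤ Fintype.card V * f) :
    ev W (fun ω => cnt fun v => s ≤ len (g i.val ω) v ∧ len (g (i.val + 1) ω) v < s) ≤
      Θ * (2 * s) * (Fintype.card V * (2 * s * m + f)) * ev W (fun _ => 1) := by
  classical
  set F : V → V → (K → Option (V × V)) → ℝ := fun x y ω =>
    2 * s * ind (near (g i.val ω) s (c i ω x) (c i ω y)) with hFdef
  have hF0 : ∀ x y ω, 0 ≤ F x y ω := fun x y ω =>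
    mul_nonneg (by linarith) (ind_nonneg _)
  have hFi : ∀ x y ω o, F x y (Function.update ω (a i) o) = F x y ω := by
    intro x y ω o
    simp only [hFdef]
    rw [h.g_indep i i.val le_rfl, h.c_indep]
  have h1 : ev W (fun ω => cnt fun v => s ≤ len (g i.val ω) v ∧ len (g (i.val + 1) ω) v < s) ≤
      ∑ ω, W ω * slotF (a i) F ω := by
    unfold ev
    refine sum_le_sum fun ω _ => mul_le_mul_of_nonneg_left ?_ (h.W_nonneg ω)
    rcases ho : ω (a i) with _ | ⟨x, y⟩
    · rw [slotF_none ho]
      show (cnt fun v => s ≤ len (g i.val ω) v ∧ len (g (i.val + 1) ω) v < s) ≤ 0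
      rw [step_none h i ho, cnt_ind]
      refine (sum_eq_zero fun v _ => ind_of_not ?_).le
      rintro ⟨h1, h2⟩
      linarith
    · rw [slotF_some ho]
      show (cnt fun v => s ≤ len (g i.val ω) v ∧ len (g (i.val + 1) ω) v < s) ≤ F x y ω
      rw [step_some h i ho]
      obtain ⟨h1, h2⟩ := hd V (g i.val ω) (c i ω x) (c i ω y) s hs
      by_cases hnear : near (g i.val ω) s (c i ω x) (c i ω y)
      · simp only [hFdef]
        rw [ind_of hnear, mul_one]
        exact h1
      · refine le_trans (le_of_eq ?_) (hF0 x y ω)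
        rw [cnt_ind]
        refine sum_eq_zero fun v _ => ind_of_not ?_
        rintro ⟨h3, h4⟩
        exact hnear (h2 v h3 h4)
  refine h1.trans ((slot_up (h.up i) F hF0 hFi).trans ?_)
  have h2 : ∑ x, ∑ y, w x y * evn (a i) W (F x y) ≤
      evn (a i) W (fun _ => 2 * s * (Fintype.card V * (2 * s * m + f))) := by
    have h3 : ∑ x, ∑ y, w x y * evn (a i) W (F x y) =
        evn (a i) W (fun ω => ∑ x, ∑ y, w x y * F x y ω) := by
      rw [evn_sum]
      refine sum_congr rfl fun x _ => ?_
      rw [evn_sum]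
      refine sum_congr rfl fun y _ => ?_
      exact (evn_const_mul (w x y) (F x y)).symm
    rw [h3]
    refine evn_mono h.W_nonneg fun ω _ => ?_
    have h4 : ∀ x y, w x y * F x y ω ≤
        2 * s * (m * ind (near (g i.val ω) s (c i ω x) (c i ω y)) + w2 x y) := by
      intro x y
      simp only [hFdef]
      have e1 := ind_nonneg (near (g i.val ω) s (c i ω x) (c i ω y))
      have e2 := ind_le_one (near (g i.val ω) s (c i ω x) (c i ω y))
      have e3 : w x y * ind (near (g i.val ω) s (c i ω x) (c i ω y)) ≤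
          m * ind (near (g i.val ω) s (c i ω x) (c i ω y)) + w2 x y := by
        calc w x y * ind (near (g i.val ω) s (c i ω x) (c i ω y)) ≤
            (m + w2 x y) * ind (near (g i.val ω) s (c i ω x) (c i ω y)) :=
              mul_le_mul_of_nonneg_right (hw x y) e1
          _ = m * ind (near (g i.val ω) s (c i ω x) (c i ω y)) +
              w2 x y * ind (near (g i.val ω) s (c i ω x) (c i ω y)) := by ring
          _ ≤ _ := by
              have := mul_le_mul_of_nonneg_left e2 (hw20 x y)
              linarith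
      calc w x y * (2 * s * ind (near (g i.val ω) s (c i ω x) (c i ω y))) =
          2 * s * (w x y * ind (near (g i.val ω) s (c i ω x) (c i ω y))) := by ring
        _ ≤ _ := mul_le_mul_of_nonneg_left e3 (by linarith)
    have h5 : ∀ x, ∑ y, ind (near (g i.val ω) s (c i ω x) (c i ω y)) ≤ 2 * s := by
      intro x
      have := Equiv.sum_comp (c i ω) (fun y => ind (near (g i.val ω) s (c i ω x) y))
      rw [this]
      exact hn V (g i.val ω) s (c i ω x) hs
    calc ∑ x, ∑ y, w x y * F x y ω ≤
        ∑ x, ∑ y, 2 * s * (m * ind (near (g i.val ω) s (c i ω x) (c i ω y)) + w2 x y) :=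
          sum_le_sum fun x _ => sum_le_sum fun y _ => h4 x y
      _ = 2 * s * (m * (∑ x, ∑ y, ind (near (g i.val ω) s (c i ω x) (c i ω y))) +
          ∑ x, ∑ y, w2 x y) := by
          simp only [← mul_sum, sum_add_distrib]
      _ ≤ 2 * s * (m * (∑ x : V, 2 * s) + Fintype.card V * f) := by
          refine mul_le_mul_of_nonneg_left ?_ (by linarith)
          refine add_le_add (mul_le_mul_of_nonneg_left ?_ hm) hf
          exact sum_le_sum fun x _ => h5 x
      _ = 2 * s * (Fintype.card V * (2 * s * m + f)) := by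
          rw [sum_const, card_univ, nsmul_eq_mul]; ring
  have hcard : 0 ≤ (Fintype.card V : ℝ) := Nat.cast_nonneg _
  have hf0 : 0 ≤ (Fintype.card V : ℝ) * f :=
    le_trans (sum_nonneg fun x _ => sum_nonneg fun y _ => hw20 x y) hf
  have hc0 : 0 ≤ 2 * s * (Fintype.card V * (2 * s * m + f)) := by
    have : (Fintype.card V : ℝ) * (2 * s * m + f) =
      Fintype.card V * (2 * s * m) + Fintype.card V * f := by ring
    rw [this]; positivity
  have h6 : evn (a i) W (fun _ => 2 * s * (Fintype.card V * (2 * s * m + f))) ≤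
      2 * s * (Fintype.card V * (2 * s * m + f)) * ev W (fun _ => 1) := by
    refine (evn_le_ev h.W_nonneg _ fun _ => hc0).trans (le_of_eq ?_)
    have := ev_const_mul (W := W) (2 * s * (Fintype.card V * (2 * s * m + f))) (fun _ => 1)
    rw [← this]
    simp
  calc Θ * ∑ x, ∑ y, w x y * evn (a i) W (F x y) ≤
      Θ * (2 * s * (Fintype.card V * (2 * s * m + f)) * ev W (fun _ => 1)) :=
        mul_le_mul_of_nonneg_left (h2.trans h6) hΘ
    _ = _ := by ring

end stage

end Pool.Agent.W815.LR
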